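import Pool.Agent.W300.FT.Stm

set_option autoImplicit false

namespace Pool.Agent.W271.FT.LOC1
open MeasureTheory ProbabilityTheory Pool.Agent.W300.FT

instance (V : Type) : IsProbabilityMeasure (PI V) := by unfold PI; infer_instance

theorem meas_mix {V : Type} (N : Set V) :
    Measurable (fun q : (V → unitInterval) × (V → unitInterval) => mix N q.1 q.2) := by
  classical
  rw [measurable_pi_iff]
  intro u
  by_cases hu : u ∈ N
  · simp only [mix, if_pos hu]
    exact (measurable_pi_apply u).comp measurable_fst
  · simp only [mix, if_neg hu]
    exact (measurable_pi_apply u).comp measurable_snd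

theorem meas_ne {α : Type} [MeasurableSpace α] (f g : α → K → Bool) (hf : Measurable f)
    (hg : Measurable g) : MeasurableSet {q | f q ≠ g q} := by
  have e : {q | f q ≠ g q} = ⋃ k : K, (fun q => (f q k, g q k)) ⁻¹' {b : Bool × Bool | b.1 ≠ b.2} := by
    ext q
    simp only [Set.mem_setOf_eq, Set.mem_iUnion, Set.mem_preimage]
    exact Function.ne_iff
  rw [e]
  refine MeasurableSet.iUnion (fun k => ?_)
  have h1 : Measurable (fun q => (f q k, g q k)) :=
    Measurable.prodMk ((measurable_pi_apply k).comp hf) ((measurable_pi_apply k).comp hg)
  exact h1 (MeasurableSet.of_discrete)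

theorem loc1 : S_LOC1 := by
  classical
  intro V G F hV hF m v
  have hFv : Measurable (fun y => F y v) := (measurable_pi_apply v).comp hF
  constructor
  · set E : Set ((V → unitInterval) × ((V → unitInterval) × (V → unitInterval))) :=
      {q | F (mix (Bal G m v) q.1 q.2.1) v ≠ F (mix (Bal G m v) q.1 q.2.2) v} with hE
    have hEm : MeasurableSet E := by
      apply meas_ne
      · exact hFv.comp ((meas_mix (Bal G m v)).comp
          (Measurable.prodMk measurable_fst (measurable_fst.comp measurable_snd)))
      · exact hFv.comp ((meas_mix (Bal G m v)).comp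
          (Measurable.prodMk measurable_fst (measurable_snd.comp measurable_snd)))
    have h1 := measurable_measure_prodMk_left (ν := (PI V).prod (PI V)) hEm
    have e : Loc G F m v = (fun y => ((PI V).prod (PI V)) (Prod.mk y ⁻¹' E)) ⁻¹' {0} := by
      ext y
      simp only [Loc, Set.mem_setOf_eq, Set.mem_preimage, Set.mem_singleton_iff, ae_iff]
      rfl
    rw [e]
    exact h1 (measurableSet_singleton 0)
  · rw [measurable_pi_iff]
    intro k
    apply measurable_to_bool
    set E : Set ((V → unitInterval) × (V → unitInterval)) :=
      {q | F (mix (Bal G m v) q.1 q.2) v k = true} with hE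
    have hEm : MeasurableSet E := by
      have h2 : Measurable (fun q : (V → unitInterval) × (V → unitInterval) =>
          F (mix (Bal G m v) q.1 q.2) v k) :=
        (measurable_pi_apply k).comp (hFv.comp (meas_mix (Bal G m v)))
      exact h2 (measurableSet_singleton true)
    have h1 := measurable_measure_prodMk_left (ν := PI V) hEm
    have e : (fun y => Gf G F m v y k) ⁻¹' {true} = {y | 1 / 2 < PI V (Prod.mk y ⁻¹' E)} := by
      ext y
      simp only [Gf, Set.mem_preimage, Set.mem_singleton_iff, decide_eq_true_eq, Set.mem_setOf_eq]
      rfl
    rw [e]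
    exact measurableSet_lt measurable_const h1

end Pool.Agent.W271.FT.LOC1
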