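import Pool.Agent.W300.FT.Stm

set_option autoImplicit false

namespace Pool.Agent.W271.FT.REL
open MeasureTheory ProbabilityTheory Pool.Agent.W300.FT

variable {V : Type} {G : SimpleGraph V} {ω : V × K → Bool} {c : ℕ × ℕ}

theorem mt_right {j : ℕ} {u w w' : V} (h : mt G ω c j u w) (h' : mt G ω c j u w') : w = w' := by
  obtain ⟨ha, _, hw, ⟨x, _, hx⟩, _⟩ := h
  obtain ⟨ha', _, hw', _, _⟩ := h'
  rw [hx w ⟨ha, hw⟩, hx w' ⟨ha', hw'⟩]

theorem mt_left {j : ℕ} {u u' w : V} (h : mt G ω c j u w) (h' : mt G ω c j u' w) : u = u' := by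
  obtain ⟨ha, hu, _, _, ⟨x, _, hx⟩⟩ := h
  obtain ⟨ha', hu', _, _, _⟩ := h'
  rw [hx u ⟨ha.symm, hu⟩, hx u' ⟨ha'.symm, hu'⟩]

theorem uniq {γ γ' : ℕ → V} (h : Ch G ω c γ) (h' : Ch G ω c γ') (h1 : γ 1 = γ' 1) :
    ∀ j, j ≤ c.1 + 2 → γ j = γ' j := by
  intro j
  induction j with
  | zero =>
    intro _
    have a := h 0 (by omega)
    have b := h' 0 (by omega)
    rw [zero_add] at a b
    rw [h1] at a
    exact mt_left a b
  | succ j ih =>
    intro hj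
    rcases Nat.eq_zero_or_pos j with rfl | hj0
    · exact h1
    · have e := ih (by omega)
      have a := h j (by omega)
      have b := h' j (by omega)
      rw [e] at a
      exact mt_right a b

theorem psi0 (v : V) (j : ℕ) : Psi G ω v (c, j, 0) = ω (v, (c, j, 0)) := by
  simp [Psi]

theorem psi1 (v : V) (j : ℕ) : Psi G ω v (c, j, 1) = true ↔ et G ω c j v := by
  classical
  simp [Psi]

theorem psiI (v : V) (j i : ℕ) (hi : 2 ≤ i) (hj : j ≠ 1) :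
    Psi G ω v (c, j, i) = ω (v, (c, j, i)) := by
  classical
  have h0 : i ≠ 0 := by omega
  have h1 : i ≠ 1 := by omega
  simp [Psi, h0, h1, hj]

theorem fm_congr {γ γ' : ℕ → V} (i : ℕ) (h : ∀ j, j ≤ c.1 + 2 → γ j = γ' j) :
    fm ω c i γ = fm ω c i γ' := by
  unfold fm
  rw [h 0 (by omega), h (c.1 + 2) le_rfl]
  congr 1
  apply Finset.sum_congr rfl
  intro j hj
  rw [Finset.mem_Ioo] at hj
  rw [h j (by omega)]

theorem psiM {γ : ℕ → V} (h : Ch G ω c γ) (i : ℕ) (hi : 2 ≤ i) :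
    bt (Psi G ω (γ 1) (c, 1, i)) = fm ω c i γ := by
  classical
  have h0 : i ≠ 0 := by omega
  have h1 : i ≠ 1 := by omega
  have hex : ∃ γ' : ℕ → V, γ' 1 = γ 1 ∧ Ch G ω c γ' := ⟨γ, rfl, h⟩
  have e : Psi G ω (γ 1) (c, 1, i) =
      decide (∃ γ' : ℕ → V, γ' 1 = γ 1 ∧ Ch G ω c γ' ∧ fm ω c i γ' = 1) := by
    unfold Psi
    simp only [h0, h1, if_false]
    rw [if_pos ⟨trivial, hex⟩]
  rw [e]
  have hz : ∀ z : ZMod 2, z = 0 ∨ z = 1 := by decide
  rcases hz (fm ω c i γ) with hf | hf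
  · have hn : ¬ ∃ γ' : ℕ → V, γ' 1 = γ 1 ∧ Ch G ω c γ' ∧ fm ω c i γ' = 1 := by
      rintro ⟨γ', a, b, d⟩
      rw [fm_congr i (uniq b h a), hf] at d
      exact absurd d (by decide)
    rw [hf, decide_eq_false hn]
    rfl
  · rw [hf, decide_eq_true ⟨γ, rfl, h, hf⟩]
    rfl

theorem rel : S_REL := by
  intro V G ω c γ h i hi
  have hch : Ch G ω c γ := by
    intro j hj
    obtain ⟨a, b, d, e, f⟩ := h j hj
    rw [psi0] at b d
    rw [psi1] at e f
    exact ⟨a, b, d, e, f⟩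
  rw [psiI (γ 0) 0 i hi (by omega), psiI (γ (c.1 + 2)) (c.1 + 2) i hi (by omega)]
  have hI : Finset.Ioo 0 (c.1 + 2) = insert 1 (Finset.Ioo 1 (c.1 + 2)) := by
    ext j
    simp only [Finset.mem_Ioo, Finset.mem_insert]
    omega
  rw [hI, Finset.sum_insert (by simp), psiM hch i hi]
  have hs : ∑ j ∈ Finset.Ioo 1 (c.1 + 2), bt (Psi G ω (γ j) (c, j, i)) =
      ∑ j ∈ Finset.Ioo 1 (c.1 + 2), bt (ω (γ j, (c, j, i))) := by
    apply Finset.sum_congr rfl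
    intro j hj
    rw [Finset.mem_Ioo] at hj
    rw [psiI (γ j) j i hi (by omega)]
  rw [hs]
  unfold fm
  rw [add_assoc, CharTwo.add_self_eq_zero, add_zero]

end Pool.Agent.W271.FT.REL
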